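import Pool.Agent.Helper70.BN.St2

/-! # Project BN (MP_a2f62e_al): module BQUAD, the quadratic relation -/

set_option autoImplicit false

namespace Pool.Agent.Helper27.BN

open Pool.Agent.Helper75.MX Pool.Agent.Helper70.ML Pool.Agent.Helper70.BN

theorem hBQUAD (hBAVG : StBAVG) : StBQUAD := by
  intro G _ _ B n q hn hdc hq hcard f hf
  classical
  obtain ⟨h1, h2, h3, h4, h5, h6, -⟩ := hBAVG G B
  have : Fintype B := Fintype.ofFinite B
  let AL : (G → ℝ) →ₗ[ℝ] (G → ℝ) := { toFun := avg B, map_add' := h3, map_smul' := h4 }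
  have hAL : ∀ g, AL g = avg B g := fun _ => rfl
  have hterm : ∀ b : B, avg B (L (n * b * n) f) =
      if (n⁻¹ * (b : G) * n ∈ B) then f else avg B (L n f) := by
    intro b
    by_cases hb : n⁻¹ * (b : G) * n ∈ B
    · rw [if_pos hb]
      have hm : n * (b : G) * n ∈ B := by
        have e : n * (b : G) * n = (n * n) * (n⁻¹ * b * n) := by group
        rw [e]
        exact B.mul_mem hn hb
      rw [h5 _ hm, h2 f hf]
    · rw [if_neg hb]
      rcases hdc b b.2 with h | ⟨b1, hb1, b2, hb2, e⟩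
      · exfalso
        apply hb
        have e : n⁻¹ * (b : G) * n = (n * n)⁻¹ * (n * b * n) := by group
        rw [e]
        exact B.mul_mem (B.inv_mem hn) h
      · rw [e, Pool.Agent.Helper75.MX.L_mul, Pool.Agent.Helper75.MX.L_mul, mem_stab.1 (hf hb2), h5 b1 hb1]
  have hsum : avg B (L n (avg B (L n f))) = (1 / (Nat.card B : ℝ)) •
      ∑ b : B, (if (n⁻¹ * (b : G) * n ∈ B) then f else avg B (L n f)) := by
    rw [h6, h4, finsum_eq_sum_of_fintype, ← hAL, map_sum]
    congr 1
    refine Finset.sum_congr rfl fun b _ => ?_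
    rw [hAL, ← Pool.Agent.Helper75.MX.L_mul, hterm]
  set g : G → ℝ := avg B (L n f) with hg
  have hite : ∑ b : B, (if (n⁻¹ * (b : G) * n ∈ B) then f else g) =
      ((Finset.univ.filter fun b : B => n⁻¹ * (b : G) * n ∈ B).card : ℝ) • f +
      ((Finset.univ.filter fun b : B => ¬ (n⁻¹ * (b : G) * n ∈ B)).card : ℝ) • g := by
    rw [Finset.sum_ite, Finset.sum_const, Finset.sum_const, ← Nat.cast_smul_eq_nsmul ℝ,
      ← Nat.cast_smul_eq_nsmul ℝ]
  have hK : Nat.card {b : B // n⁻¹ * (b : G) * n ∈ B} =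
      (Finset.univ.filter fun b : B => n⁻¹ * (b : G) * n ∈ B).card := by
    rw [Nat.card_eq_fintype_card, Fintype.card_subtype]
  have hB : (Finset.univ.filter fun b : B => n⁻¹ * (b : G) * n ∈ B).card +
      (Finset.univ.filter fun b : B => ¬ (n⁻¹ * (b : G) * n ∈ B)).card = Nat.card B := by
    rw [Finset.card_filter_add_card_filter_not, Finset.card_univ, Nat.card_eq_fintype_card]
  rw [hK] at hcard
  set K := (Finset.univ.filter fun b : B => n⁻¹ * (b : G) * n ∈ B).card with hKdef
  set K' := (Finset.univ.filter fun b : B => ¬ (n⁻¹ * (b : G) * n ∈ B)).card with hKdef'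
  have hpos : 0 < Nat.card B := Nat.card_pos
  have hKpos : 0 < K := by
    rcases Nat.eq_zero_or_pos K with h | h
    · rw [h, Nat.mul_zero] at hcard
      omega
    · exact h
  have hKr : (0 : ℝ) < K := by exact_mod_cast hKpos
  have hqr : (0 : ℝ) < q := by exact_mod_cast hq
  have hc : (q : ℝ) * K = (Nat.card B : ℝ) := by exact_mod_cast hcard
  have hB' : (K : ℝ) + K' = (Nat.card B : ℝ) := by exact_mod_cast hB
  have hK' : (K' : ℝ) = q * K - K := by linarith
  rw [L_smul, h4, hsum, hite, hK', ← hc]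
  funext x
  simp only [Pi.smul_apply, Pi.add_apply, smul_eq_mul]
  field_simp

end Pool.Agent.Helper27.BN
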